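import Pool.Agent.H15.TG.Targets
import Pool.Agent.H20.ST2.GEN
import Pool.Agent.H11.ST2.KRL

/-!
# ZLF: lowest forms
-/

set_option autoImplicit false

namespace Pool.Agent.H4.TG

open MvPolynomial Pool.Agent.H2.ST Pool.Agent.H15.TG Pool.Agent.H20.ST2 Pool.Agent.H11.ST2

section

variable {k : Type} [Field k] {m : ℕ}

lemma mem_mo_pow {N : ℕ} {f : Pol k m} :
    f ∈ mo k m ^ N ↔ ∀ x, Finsupp.degree x < N → coeff x f = 0 := by
  rw [mo_eq, mem_pow_idealOfVars_iff']

/-- the monomial `a ^ α` -/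
noncomputable def mon (a : Fin m ⊕ Fin m → Pol k m) (α : Fin m ⊕ Fin m →₀ ℕ) : Pol k m :=
  ∏ s, a s ^ α s

lemma mon_add (a : Fin m ⊕ Fin m → Pol k m) (α β : Fin m ⊕ Fin m →₀ ℕ) :
    mon a (α + β) = mon a α * mon a β := by
  unfold mon
  rw [← Finset.prod_mul_distrib]
  exact Finset.prod_congr rfl fun s _ => by rw [Finsupp.add_apply, pow_add]

lemma mon_zero (a : Fin m ⊕ Fin m → Pol k m) : mon a 0 = 1 := by
  unfold mon
  exact Finset.prod_eq_one fun s _ => by rw [Finsupp.zero_apply, pow_zero]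

lemma mon_single (a : Fin m ⊕ Fin m → Pol k m) (s : Fin m ⊕ Fin m) (n : ℕ) :
    mon a (Finsupp.single s n) = a s ^ n := by
  classical
  unfold mon
  rw [Finset.prod_eq_single s]
  · rw [Finsupp.single_eq_same]
  · intro t _ ht
    rw [Finsupp.single_eq_of_ne ht, pow_zero]
  · intro h
    exact absurd (Finset.mem_univ s) h

lemma aeval_mon (a : Fin m ⊕ Fin m → Pol k m) (α : Fin m ⊕ Fin m →₀ ℕ) (c : k) :
    aeval a (monomial α c) = C c * mon a α := by
  rw [aeval_monomial, Finsupp.prod_fintype _ _ (fun i => pow_zero _), algebraMap_eq]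
  rfl

lemma mon_mem_mo {a : Fin m ⊕ Fin m → Pol k m} (ha : ∀ s, a s ∈ mo k m)
    (α : Fin m ⊕ Fin m →₀ ℕ) : mon a α ∈ mo k m ^ Finsupp.degree α := by
  induction α using Finsupp.induction_linear with
  | zero =>
    rw [map_zero, pow_zero, Ideal.one_eq_top]
    trivial
  | add α β h1 h2 =>
    rw [mon_add, map_add, pow_add]
    exact Ideal.mul_mem_mul h1 h2
  | single s n =>
    rw [mon_single, Finsupp.degree_single]
    exact Ideal.pow_mem_pow (ha s) n

lemma mon_sub {a b : Fin m ⊕ Fin m → Pol k m} (ha : ∀ s, a s ∈ mo k m) (hb : ∀ s, b s ∈ mo k m)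
    (hab : ∀ s, a s - b s ∈ mo k m ^ 2) (α : Fin m ⊕ Fin m →₀ ℕ) :
    mon a α - mon b α ∈ mo k m ^ (Finsupp.degree α + 1) := by
  have key : ∀ α β : Fin m ⊕ Fin m →₀ ℕ, mon a α - mon b α ∈ mo k m ^ (Finsupp.degree α + 1) →
      mon a β - mon b β ∈ mo k m ^ (Finsupp.degree β + 1) →
      mon a (α + β) - mon b (α + β) ∈ mo k m ^ (Finsupp.degree (α + β) + 1) := by
    intro α β h1 h2
    have e1 : mon a (α + β) - mon b (α + β) =
        mon a α * (mon a β - mon b β) + (mon a α - mon b α) * mon b β := by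
      rw [mon_add, mon_add]
      ring
    rw [e1, map_add]
    refine Ideal.add_mem _ ?_ ?_
    · rw [add_assoc, pow_add]
      exact Ideal.mul_mem_mul (mon_mem_mo ha α) h2
    · rw [add_right_comm, pow_add]
      exact Ideal.mul_mem_mul h1 (mon_mem_mo hb β)
  induction α using Finsupp.induction_linear with
  | zero =>
    rw [mon_zero, mon_zero, sub_self]
    exact Ideal.zero_mem _
  | add α β h1 h2 => exact key α β h1 h2
  | single s n =>
    induction n with
    | zero =>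
      rw [Finsupp.single_zero, mon_zero, mon_zero, sub_self]
      exact Ideal.zero_mem _
    | succ n ih =>
      rw [Finsupp.single_add]
      refine key _ _ ih ?_
      rw [mon_single, mon_single, pow_one, pow_one, Finsupp.degree_single]
      exact hab s

lemma aeval_sub {a b : Fin m ⊕ Fin m → Pol k m} (ha : ∀ s, a s ∈ mo k m)
    (hb : ∀ s, b s ∈ mo k m) (hab : ∀ s, a s - b s ∈ mo k m ^ 2) {N : ℕ} {F : Pol k m}
    (hF : F.IsHomogeneous N) : aeval a F - aeval b F ∈ mo k m ^ (N + 1) := by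
  rw [F.as_sum, map_sum, map_sum, ← Finset.sum_sub_distrib]
  refine Ideal.sum_mem _ fun α hα => ?_
  rw [aeval_mon, aeval_mon, ← mul_sub]
  refine Ideal.mul_mem_left _ _ ?_
  have h1 : Finsupp.degree α = N := by
    by_contra hne
    exact (mem_support_iff.1 hα) (hF.coeff_eq_zero hne)
  rw [← h1]
  exact mon_sub ha hb hab α

/-- the linear forms with the coefficients `M` -/
noncomputable def lf (M : Matrix (Fin m ⊕ Fin m) (Fin m ⊕ Fin m) k) (s : Fin m ⊕ Fin m) :
    Pol k m := ∑ t, C (M s t) * X t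

lemma lf_hom (M : Matrix (Fin m ⊕ Fin m) (Fin m ⊕ Fin m) k) (s : Fin m ⊕ Fin m) :
    (lf M s).IsHomogeneous 1 :=
  IsHomogeneous.sum _ _ _ fun t _ => isHomogeneous_C_mul_X _ _

lemma lf_mo (M : Matrix (Fin m ⊕ Fin m) (Fin m ⊕ Fin m) k) (s : Fin m ⊕ Fin m) :
    lf M s ∈ mo k m := by
  rw [mem_mo]
  unfold lf
  rw [map_sum]
  exact Finset.sum_eq_zero fun t _ => by rw [map_mul, constantCoeff_X, mul_zero]

lemma lf_comp {M M' : Matrix (Fin m ⊕ Fin m) (Fin m ⊕ Fin m) k} (h : M * M' = 1)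
    (s : Fin m ⊕ Fin m) : aeval (lf M') (lf M s) = X s := by
  classical
  have h1 : aeval (lf M') (lf M s) = ∑ t, C (M s t) * lf M' t := by
    conv_lhs => rw [lf]
    rw [map_sum]
    refine Finset.sum_congr rfl fun t _ => ?_
    rw [map_mul, aeval_C, aeval_X, algebraMap_eq]
  rw [h1]
  have h2 : ∑ t, C (M s t) * lf M' t = ∑ u, C ((M * M') s u) * (X u : Pol k m) := by
    unfold lf
    simp only [Finset.mul_sum]
    rw [Finset.sum_comm]
    refine Finset.sum_congr rfl fun u _ => ?_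
    rw [Matrix.mul_apply, map_sum, Finset.sum_mul]
    refine Finset.sum_congr rfl fun t _ => ?_
    rw [map_mul, mul_assoc]
  rw [h2, h, Finset.sum_eq_single s]
  · rw [Matrix.one_apply_eq, C_1, one_mul]
  · intro u _ hu
    rw [Matrix.one_apply_ne (Ne.symm hu), C_0, zero_mul]
  · intro h
    exact absurd (Finset.mem_univ s) h

lemma lf_inv {M M' : Matrix (Fin m ⊕ Fin m) (Fin m ⊕ Fin m) k} (h : M * M' = 1) (F : Pol k m) :
    aeval (lf M') (aeval (lf M) F) = F := by
  have h1 : (aeval (lf M')).comp (aeval (lf M)) = AlgHom.id k (Pol k m) := by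
    apply MvPolynomial.algHom_ext
    intro s
    rw [AlgHom.comp_apply, aeval_X, lf_comp h, AlgHom.id_apply]
  exact congrArg (fun φ : Pol k m →ₐ[k] Pol k m => φ F) h1

lemma y_mo {Γ : Type} [AddCommGroup Γ] {W : Γ → Submodule k (Pol k m)}
    {y : Fin m ⊕ Fin m → Pol k m} {w : Fin m → Γ} (h : Ada W y w) (s : Fin m ⊕ Fin m) :
    y s ∈ mo k m := mem_mo.2 (h.hz s)

lemma y_lf {Γ : Type} [AddCommGroup Γ] {W : Γ → Submodule k (Pol k m)}
    {y : Fin m ⊕ Fin m → Pol k m} {w : Fin m → Γ} (h : Ada W y w) (s : Fin m ⊕ Fin m) :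
    y s - lf (MA y) s ∈ mo k m ^ 2 := by
  classical
  refine mem_mo_sq ?_ fun u => ?_
  · rw [map_sub, h.hz, zero_sub, neg_eq_zero]
    exact mem_mo.1 (lf_mo _ _)
  · have h1 : lin (y s - lf (MA y) s) u = lin (y s) u - lin (lf (MA y) s) u := coeff_sub _ _ _ _
    rw [h1, sub_eq_zero]
    unfold lf
    rw [lin_sum, Finset.sum_eq_single u]
    · unfold lin
      rw [coeff_X, if_pos rfl, mul_one]
      rfl
    · intro t _ ht
      unfold lin
      rw [coeff_X, if_neg (fun he => ht (Finsupp.single_left_injective one_ne_zero he)), mul_zero]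
    · intro h
      exact absurd (Finset.mem_univ u) h

lemma hom_mo {N : ℕ} {F : Pol k m} (hF : F.IsHomogeneous N) (h : F ∈ mo k m ^ (N + 1)) :
    F = 0 := by
  rw [mem_mo_pow] at h
  ext x
  rw [coeff_zero]
  by_cases hx : Finsupp.degree x = N
  · exact h x (by omega)
  · exact hF.coeff_eq_zero hx

/-- (1) the forms are independent -/
theorem zlf1 {Γ : Type} [AddCommGroup Γ] {W : Γ → Submodule k (Pol k m)}
    {y : Fin m ⊕ Fin m → Pol k m} {w : Fin m → Γ} (h : Ada W y w) {N : ℕ} {F : Pol k m}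
    (hF : F.IsHomogeneous N) (hm : aeval y F ∈ mo k m ^ (N + 1)) : F = 0 := by
  classical
  have hdet := SymplecticGroup.symplectic_det (MA_mem h)
  have h1 := aeval_sub (y_mo h) (lf_mo (MA y)) (y_lf h) hF
  have h2 : aeval (lf (MA y)) F ∈ mo k m ^ (N + 1) := by
    have h3 := Ideal.sub_mem _ hm h1
    rwa [sub_sub_cancel] at h3
  have h3 : (aeval (lf (MA y)) F).IsHomogeneous N := by
    have h4 := hF.aeval (lf (MA y)) (lf_hom (MA y))
    rwa [one_mul] at h4
  have h4 := hom_mo h3 h2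
  rw [← lf_inv (Matrix.mul_nonsing_inv (MA y) hdet) F, h4, map_zero]

/-- (2) lowest form -/
theorem zlf2 {Γ : Type} [AddCommGroup Γ] {W : Γ → Submodule k (Pol k m)}
    {y : Fin m ⊕ Fin m → Pol k m} {w : Fin m → Γ} (h : Ada W y w) {f : Pol k m} (hf : f ≠ 0) :
    ∃ (N : ℕ) (F : Pol k m), F.IsHomogeneous N ∧ F ≠ 0 ∧ f - aeval y F ∈ mo k m ^ (N + 1) := by
  classical
  have hdet := SymplecticGroup.symplectic_det (MA_mem h)
  have hex : ∃ N, ∃ x, Finsupp.degree x = N ∧ coeff x f ≠ 0 := by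
    obtain ⟨x, hx⟩ := ne_zero_iff.1 hf
    exact ⟨_, x, rfl, hx⟩
  obtain ⟨x, hx, hxf⟩ := Nat.find_spec hex
  set N := Nat.find hex with hN
  have hlow : ∀ x, Finsupp.degree x < N → coeff x f = 0 := by
    intro z hz
    by_contra hne
    exact Nat.find_min hex hz ⟨z, rfl, hne⟩
  set g := homogeneousComponent N f with hg
  have hgh : g.IsHomogeneous N := homogeneousComponent_isHomogeneous N f
  have hg0 : g ≠ 0 := by
    intro h0
    apply hxf
    have h1 : coeff x g = coeff x f := by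
      rw [hg, coeff_homogeneousComponent, if_pos hx]
    rw [← h1, h0, coeff_zero]
  have hfg : f - g ∈ mo k m ^ (N + 1) := by
    rw [mem_mo_pow]
    intro z hz
    rw [coeff_sub, hg, coeff_homogeneousComponent]
    by_cases hzN : Finsupp.degree z = N
    · rw [if_pos hzN, sub_self]
    · rw [if_neg hzN, sub_zero]
      exact hlow z (by omega)
  have hinv : (MA y)⁻¹ * MA y = 1 := Matrix.nonsing_inv_mul (MA y) hdet
  have hF : (aeval (lf (MA y)⁻¹) g).IsHomogeneous N := by
    have h4 := hgh.aeval (lf (MA y)⁻¹) (lf_hom (MA y)⁻¹)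
    rwa [one_mul] at h4
  have hFg : aeval (lf (MA y)) (aeval (lf (MA y)⁻¹) g) = g := lf_inv hinv g
  refine ⟨N, aeval (lf (MA y)⁻¹) g, hF, ?_, ?_⟩
  · intro h0
    apply hg0
    rw [← hFg, h0, map_zero]
  · have h1 := aeval_sub (y_mo h) (lf_mo (MA y)) (y_lf h) hF
    rw [hFg] at h1
    have h2 := Ideal.sub_mem _ hfg h1
    have h3 : f - g - (aeval y (aeval (lf (MA y)⁻¹) g) - g) =
        f - aeval y (aeval (lf (MA y)⁻¹) g) := by ring
    rwa [h3] at h2

end

theorem pf_ZLF (_hGEN : T_GEN) (hSTB : T_STB) : T_ZLF := by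
  classical
  intro k _ m Γ _ W y w hP hA
  refine ⟨fun N F hF hm => zlf1 hA hF hm, ?_⟩
  intro f hf
  obtain ⟨N, F, hF, hF0, hfF⟩ := zlf2 hA hf
  refine ⟨N, F, hF, hF0, hfF, ?_⟩
  intro χ hfχ α hα
  by_contra hne
  set F' : Pol k m := ∑ β ∈ F.support with wtm w β = wtm w α, monomial β (coeff β F) with hF'
  have hcmp : cmp hP.toGr (aeval y F) (wtm w α) = aeval y F' := by
    conv_lhs => rw [F.as_sum]
    rw [map_sum, map_sum, hF', map_sum, Finsupp.finsetSum_apply, Finset.sum_filter]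
    refine Finset.sum_congr rfl fun β _ => ?_
    rw [cmp_of_mem hP.toGr (mon_mem hP.toGr hA β _), Finsupp.single_apply]
  have hF'h : F'.IsHomogeneous N := by
    rw [hF']
    apply IsHomogeneous.sum
    intro β hβ
    rw [Finset.mem_filter] at hβ
    apply isHomogeneous_monomial
    by_contra hd
    exact (mem_support_iff.1 hβ.1) (hF.coeff_eq_zero hd)
  have h1 := hSTB k m Γ W hP (N + 1) _ hfF (wtm w α)
  have h2 : cmp hP.toGr (f - aeval y F) (wtm w α) = -aeval y F' := by
    rw [map_sub, Finsupp.sub_apply, hcmp, cmp_of_mem hP.toGr hfχ, Finsupp.single_apply,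
      if_neg (fun h => hne h.symm), zero_sub]
  rw [h2] at h1
  have h3 : aeval y F' ∈ mo k m ^ (N + 1) := by
    have h4 := Ideal.neg_mem_iff _ |>.1 h1
    exact h4
  have h4 := zlf1 hA hF'h h3
  have h5 : coeff α F' = coeff α F := by
    rw [hF', coeff_sum, Finset.sum_eq_single α]
    · rw [coeff_monomial, if_pos rfl]
    · intro β _ hβ
      rw [coeff_monomial, if_neg hβ]
    · intro hnot
      exfalso
      apply hnot
      rw [Finset.mem_filter]
      exact ⟨hα, rfl⟩
  rw [h4, coeff_zero] at h5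
  exact (mem_support_iff.1 hα) h5.symm

end Pool.Agent.H4.TG
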