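import Pool.Agent.H15.TG.Targets

/-!
# DVS: elements of `K` of negative `l` are divisible by `σ`
-/

set_option autoImplicit false

namespace Pool.Agent.H4.TG

open MvPolynomial Pool.Agent.H2.ST Pool.Agent.H15.TG

theorem pf_DVS (hAI1 : T_AI1) (hAI2 : T_AI2) (hAI3 : T_AI3) (hKAP : T_KAP) (hGIS : T_GIS)
    (hIMS : T_IMS) (hZSG : T_ZSG) : T_DVS := by
  classical
  intro k _ _ _ m d W K H f π σ q y ψ l h χ₀ g₀ hg₀ hgW hlχ
  by_contra hσg
  obtain ⟨χ', κ, hκK, hκW, hlκ, hκσ, hκf, hκs⟩ :=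
    hKAP k m d W K H f π σ q y ψ l h χ₀ g₀ hg₀ hgW hlχ hσg
  obtain ⟨χ, g, hg, hlin⟩ := hGIS k m d W K H f π σ q y ψ l h
  obtain ⟨j0, him⟩ := hIMS k m d W K H f π σ q y ψ l h
  obtain ⟨z2, hz2K, hz2⟩ := hZSG k m d W K H f π σ q y ψ l h
  have hσ0 : σ ≠ 0 := h.pσ.ne_zero
  have hπ0 : π ≠ 0 := h.pp.ne_zero
  have hκ0 : κ ≠ 0 := by
    rintro rfl
    exact hκσ (dvd_zero _)
  have hmem : ∀ x : Pol k m, x ∈ Ideal.span {σ} ↔ σ ∣ x := fun x => Ideal.mem_span_singleton
  have hJ : (Ideal.span {σ} : Ideal (Pol k m)).IsPrime := (Ideal.span_singleton_prime hσ0).2 h.pσ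
  have hσf : br f σ = 0 := (mem_Cf.1 h.hσ).2
  have hσK : σ ∈ K := (mem_Cf.1 h.hσ).1
  have hπf : br f π = 0 := (mem_Cf.1 h.hp).2
  have hπK : π ∈ K := (mem_Cf.1 h.hp).1
  -- the occurring weights
  have hocκ : Oc W K χ' := ⟨κ, hκK, hκW, hκ0⟩
  have hocπ : Oc W K ψ := ⟨π, hπK, h.wp, hπ0⟩
  have hocσ : Oc W K (-ψ) := ⟨σ, hσK, h.wσ, hσ0⟩
  have hoc0 : Oc W K 0 := ⟨1, K.one_mem, h.toGr.one, one_ne_zero⟩
  have hl0 : l 0 = 0 := by
    have h1 := h.la 0 0 hoc0 hoc0
    rw [add_zero] at h1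
    omega
  have hlψ : l (-ψ) = -1 := by
    have h1 := h.la ψ (-ψ) hocπ hocσ
    rw [add_neg_cancel, hl0, h.l1] at h1
    omega
  -- independence modulo `σ`
  have h3 := hAI3 k (Pol k m) (Fin d → ℤ) (Unit ⊕ {i : Fin d // i ≠ j0}) (Fin (d - 1) ⊕ Unit) W
    h.toGr (Ideal.span {σ})
    (Sum.elim (fun _ : Unit => f) (fun i : {i : Fin d // i ≠ j0} => H i.1))
    (Sum.elim g (fun _ : Unit => κ)) (Sum.elim χ (fun _ : Unit => χ')) hJ
    (by
      intro x hx a
      obtain ⟨t, rfl⟩ := (hmem x).1 hx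
      rw [hmem]
      have h1 := cmp_mul_of_mem h.toGr h.wσ t (a + ψ)
      rw [add_neg_cancel_right] at h1
      rw [mul_comm σ t, h1]
      exact dvd_mul_left _ _)
    (by
      rintro (i | i)
      · exact h.f0
      · exact h.h0 i.1)
    (by
      rintro (i | i)
      · exact (hg i).2.1
      · exact hκW)
    (by
      rintro (i | i)
      · rw [hmem]
        exact (hg i).2.2.1
      · rw [hmem]
        exact hκσ)
    (hlin χ' hocκ (by omega)) him
  set Y : (Unit ⊕ {i : Fin d // i ≠ j0}) ⊕ (Fin (d - 1) ⊕ Unit) → Pol k m :=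
    Sum.elim (Sum.elim (fun _ : Unit => f) (fun i : {i : Fin d // i ≠ j0} => H i.1))
      (Sum.elim g (fun _ : Unit => κ)) with hY
  have hYK : ∀ i, Y i ∈ K := by
    rintro ((i | i) | (i | i))
    · exact h.fK
    · exact h.hK i.1
    · exact (mem_Cf.1 (hg i).1).1
    · exact hκK
  -- the derivations
  have h1 := hAI1 k (Pol k m) ((Unit ⊕ {i : Fin d // i ≠ j0}) ⊕ (Fin (d - 1) ⊕ Unit)) (Fin 2)
    (Ideal.span {σ}) Y ![π, z2] ![ad f, ad σ] hJ
    (by
      intro i x hx
      obtain ⟨t, rfl⟩ := (hmem x).1 hx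
      rw [hmem]
      fin_cases i
      · change σ ∣ ad f (σ * t)
        rw [ad_apply, br_mul, hσf, mul_zero, add_zero]
        exact dvd_mul_right _ _
      · change σ ∣ ad σ (σ * t)
        rw [ad_apply, br_mul, br_self, mul_zero, add_zero]
        exact dvd_mul_right _ _)
    (by
      intro i j
      rw [hmem]
      fin_cases i
      · change σ ∣ ad f (Y j)
        rw [ad_apply]
        rcases j with (j | j) | (j | j)
        · change σ ∣ br f f
          rw [br_self]
          exact dvd_zero _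
        · change σ ∣ br f (H j.1)
          have e1 := h.eu j.1 0 f h.fK h.f0
          rw [Pi.zero_apply, Int.cast_zero, zero_smul] at e1
          rw [br_anti, e1, neg_zero]
          exact dvd_zero _
        · change σ ∣ br f (g j)
          rw [(mem_Cf.1 (hg j).1).2]
          exact dvd_zero _
        · exact hκf
      · change σ ∣ ad σ (Y j)
        rw [ad_apply]
        rcases j with (j | j) | (j | j)
        · change σ ∣ br σ f
          rw [br_anti, hσf, neg_zero]
          exact dvd_zero _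
        · change σ ∣ br σ (H j.1)
          have e1 := h.eu j.1 (-ψ) σ hσK h.wσ
          rw [br_anti, e1, dvd_neg]
          rw [MvPolynomial.smul_eq_C_mul]
          exact dvd_mul_left _ _
        · change σ ∣ br σ (g j)
          obtain ⟨e1, e2, e3, e4⟩ := hg j
          have hocg : Oc W K (χ j) := ⟨g j, (mem_Cf.1 e1).1, e2, by
            intro h0
            rw [h0] at e3
            exact e3 (dvd_zero _)⟩
          refine h.ln (-ψ + χ j) _ ?_ (h.pbr _ _ _ _ h.wσ e2) ?_
          · rw [mem_Cf]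
            refine ⟨h.bk _ hσK _ (mem_Cf.1 e1).1, ?_⟩
            rw [jac, hσf, zero_br, (mem_Cf.1 e1).2, br_zero, add_zero]
          · rw [h.la _ _ hocσ hocg, hlψ, e4]
            omega
        · exact hκs)
    (by
      rw [Matrix.det_fin_two]
      change ad f π * ad σ z2 - ad f z2 * ad σ π ∉ Ideal.span {σ}
      rw [ad_apply, ad_apply, ad_apply, ad_apply, hπf, zero_mul, zero_sub, br_anti σ π, h.qb,
        neg_neg, hmem, dvd_neg]
      intro h0
      rcases h.pσ.dvd_or_dvd h0 with h1 | h1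
      · exact hz2 h1
      · exact h.qσ h1)
    h3
  have h2 := hAI2 k (Pol k m) _ σ _ h.pσ h1
  have h4 := h.tr _ _ (by
    rintro ((i | i) | i)
    · exact hYK i
    · fin_cases i
      · exact hπK
      · exact hz2K
    · exact hσK) h2
  have hd := h.dpos
  have hc : Fintype.card {i : Fin d // i ≠ j0} = d - 1 := by
    rw [Fintype.card_subtype_compl, Fintype.card_fin, Fintype.card_subtype_eq]
  rw [Fintype.card_sum, Fintype.card_sum, Fintype.card_sum, Fintype.card_sum, Fintype.card_sum,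
    Fintype.card_unit, Fintype.card_fin, Fintype.card_fin, hc] at h4
  omega

end Pool.Agent.H4.TG
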