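import Pool.Agent.H15.TG.Targets

/-!
# SLH: the invariants are polynomials in `H` over the central invariants
-/

set_option autoImplicit false

namespace Pool.Agent.H4.TG

open MvPolynomial Pool.Agent.H2.ST Pool.Agent.H15.TG

section

variable {k : Type} [Field k] {m d : ℕ} {W : (Fin d → ℤ) → Submodule k (Pol k m)}
  {K : Subalgebra k (Pol k m)} {H : Fin d → Pol k m} {f : Pol k m}

lemma iter_mem (h : Fd W K H f) {χ : Fin d → ℤ} {g : Pol k m} (hg : g ∈ K) (hW : g ∈ W χ) (n : ℕ) :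
    (br f)^[n] g ∈ K ∧ (br f)^[n] g ∈ W χ := by
  induction n with
  | zero => exact ⟨hg, hW⟩
  | succ n ih =>
    rw [Function.iterate_succ_apply']
    refine ⟨h.bk _ h.fK _ ih.1, ?_⟩
    have h1 := h.pbr _ _ _ _ h.f0 ih.2
    rwa [zero_add] at h1

/-- occurring weights occur in the centralizer -/
lemma oc_cf (h : Fd W K H f) {χ : Fin d → ℤ} (ho : Oc W K χ) :
    ∃ g ∈ Cf K f, g ∈ W χ ∧ g ≠ 0 := by
  classical
  obtain ⟨g, hg, hW, hg0⟩ := ho
  have hex := h.fl g hg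
  have h1 := Nat.find_spec hex
  have h2 : Nat.find hex ≠ 0 := by
    intro h0
    rw [h0] at h1
    exact hg0 h1
  obtain ⟨n, hn⟩ := Nat.exists_eq_succ_of_ne_zero h2
  have h3 : (br f)^[n] g ≠ 0 := Nat.find_min hex (by omega)
  obtain ⟨h4, h5⟩ := iter_mem h hg hW n
  refine ⟨(br f)^[n] g, mem_Cf.2 ⟨h4, ?_⟩, h5, h3⟩
  rw [← Function.iterate_succ_apply' (br f) n g, ← hn]
  exact h1

/-- the ring of the invariants in the centralizer -/
noncomputable abbrev RR (h : Fd W K H f) : Subalgebra k (Pol k m) := Cf K f ⊓ zeroPart h.toGr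

lemma mem_RR (h : Fd W K H f) {x : Pol k m} : x ∈ RR h ↔ x ∈ Cf K f ∧ x ∈ W 0 := by
  rw [Algebra.mem_inf]
  rfl

variable [IsAlgClosed k] [CharZero k]

/-- the derivatives -/
noncomputable def dv (hDVE : T_DVE) (h : Fd W K H f) (x : RR h) : Fin d → Pol k m :=
  (hDVE k m d W K H f h x.1 ((mem_RR h).1 x.2).1 ((mem_RR h).1 x.2).2).choose

lemma dv_spec (hDVE : T_DVE) (h : Fd W K H f) (x : RR h) : Dv W K f x.1 (dv hDVE h x) :=
  (hDVE k m d W K H f h x.1 ((mem_RR h).1 x.2).1 ((mem_RR h).1 x.2).2).choose_spec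

lemma dv_mem (hDVE : T_DVE) (h : Fd W K H f) (x : RR h) (j : Fin d) : dv hDVE h x j ∈ RR h :=
  (mem_RR h).2 ((dv_spec hDVE h x).1 j)

lemma dv_add (hDVE : T_DVE) (hDVR : T_DVR) (h : Fd W K H f) (x y : RR h) (j : Fin d) :
    dv hDVE h (x + y) j = dv hDVE h x j + dv hDVE h y j := by
  obtain ⟨r1, r2, r3, r4, r5⟩ := hDVR k m d W K H f h
  rcases r3 x.1 y.1 _ _ (dv_spec hDVE h x) (dv_spec hDVE h y) with ⟨h1, _⟩ | h1
  · exact congrFun (r1 _ _ _ (dv_spec hDVE h (x + y)) h1) j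
  · exact absurd ⟨((mem_RR h).1 x.2).1, ((mem_RR h).1 x.2).2, ((mem_RR h).1 y.2).1,
      ((mem_RR h).1 y.2).2⟩ h1

lemma dv_mul (hDVE : T_DVE) (hDVR : T_DVR) (h : Fd W K H f) (x y : RR h) (j : Fin d) :
    dv hDVE h (x * y) j = x.1 * dv hDVE h y j + y.1 * dv hDVE h x j := by
  obtain ⟨r1, r2, r3, r4, r5⟩ := hDVR k m d W K H f h
  rcases r3 x.1 y.1 _ _ (dv_spec hDVE h x) (dv_spec hDVE h y) with ⟨_, h1⟩ | h1
  · exact congrFun (r1 _ _ _ (dv_spec hDVE h (x * y)) h1) j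
  · exact absurd ⟨((mem_RR h).1 x.2).1, ((mem_RR h).1 x.2).2, ((mem_RR h).1 y.2).1,
      ((mem_RR h).1 y.2).2⟩ h1

lemma dv_smul (hDVE : T_DVE) (hDVR : T_DVR) (h : Fd W K H f) (c : k) (x : RR h) (j : Fin d) :
    dv hDVE h (c • x) j = c • dv hDVE h x j := by
  have h0 : c • x = algebraMap k (RR h) c * x := Algebra.smul_def c x
  rw [h0, dv_mul hDVE hDVR]
  obtain ⟨r1, r2, r3, r4, r5⟩ := hDVR k m d W K H f h
  have h1 : (algebraMap k (RR h) c).1 = C c := rfl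
  have h2 := dv_spec hDVE h (algebraMap k (RR h) c)
  rw [h1] at h2
  have h3 := congrFun (r1 _ _ _ h2 (r5 c)) j
  rw [h3, mul_zero, add_zero, h1, MvPolynomial.smul_eq_C_mul]

/-- the derivations -/
noncomputable def DD (hDVE : T_DVE) (hDVR : T_DVR) (h : Fd W K H f) (j : Fin d) :
    Derivation k (RR h) (RR h) :=
  Derivation.mk'
    { toFun := fun x => ⟨dv hDVE h x j, dv_mem hDVE h x j⟩
      map_add' := fun x y => Subtype.ext (dv_add hDVE hDVR h x y j)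
      map_smul' := fun c x => Subtype.ext (dv_smul hDVE hDVR h c x j) }
    (fun x y => Subtype.ext (dv_mul hDVE hDVR h x y j))

lemma DD_val (hDVE : T_DVE) (hDVR : T_DVR) (h : Fd W K H f) (j : Fin d) (x : RR h) :
    (DD hDVE hDVR h j x).1 = dv hDVE h x j := rfl

/-- the derivation of a weight -/
noncomputable def LL (hDVE : T_DVE) (hDVR : T_DVR) (h : Fd W K H f) (χ : Fin d → ℤ) (x : RR h) :
    RR h := ∑ j, ((χ j : ℤ) : k) • DD hDVE hDVR h j x

lemma LL_val (hDVE : T_DVE) (hDVR : T_DVR) (h : Fd W K H f) (χ : Fin d → ℤ) (x : RR h) :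
    (LL hDVE hDVR h χ x).1 = ∑ j, ((χ j : ℤ) : k) • dv hDVE h x j := by
  unfold LL
  rw [AddSubmonoidClass.coe_finset_sum]
  rfl

lemma br_LL (hDVE : T_DVE) (hDVR : T_DVR) (h : Fd W K H f) {χ : Fin d → ℤ} {g : Pol k m}
    (hg : g ∈ Cf K f) (hW : g ∈ W χ) (x : RR h) :
    br g x.1 = -(g * (LL hDVE hDVR h χ x).1) := by
  rw [LL_val]
  exact (dv_spec hDVE h x).2 χ g hg hW

lemma LL_add (hDVE : T_DVE) (hDVR : T_DVR) (h : Fd W K H f) (χ χ' : Fin d → ℤ) (x : RR h) :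
    (LL hDVE hDVR h (χ + χ') x).1 = (LL hDVE hDVR h χ x).1 + (LL hDVE hDVR h χ' x).1 := by
  rw [LL_val, LL_val, LL_val, ← Finset.sum_add_distrib]
  refine Finset.sum_congr rfl fun j _ => ?_
  rw [← add_smul, Pi.add_apply, Int.cast_add]

/-- the derivations of the occurring weights commute -/
lemma LL_comm (hDVE : T_DVE) (hDVR : T_DVR) (h : Fd W K H f) {χ χ' : Fin d → ℤ}
    (ho : Oc W K χ) (ho' : Oc W K χ') (x : RR h) :
    (LL hDVE hDVR h χ (LL hDVE hDVR h χ' x)).1 = (LL hDVE hDVR h χ' (LL hDVE hDVR h χ x)).1 := by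
  obtain ⟨g, hg, hgW, hg0⟩ := oc_cf h ho
  obtain ⟨g', hg', hgW', hg0'⟩ := oc_cf h ho'
  have e1 := br_LL hDVE hDVR h hg' hgW' x
  have e2 := br_LL hDVE hDVR h hg hgW x
  have hb : br g g' ∈ Cf K f := by
    rw [mem_Cf] at hg hg' ⊢
    refine ⟨h.bk _ hg.1 _ hg'.1, ?_⟩
    rw [jac, hg.2, zero_br, hg'.2, br_zero, add_zero]
  have hbW : br g g' ∈ W (χ + χ') := h.pbr _ _ _ _ hgW hgW'
  have e3 := br_LL hDVE hDVR h hb hbW x
  have e4 := br_LL hDVE hDVR h hg hgW (LL hDVE hDVR h χ' x)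
  have e5 := br_LL hDVE hDVR h hg' hgW' (LL hDVE hDVR h χ x)
  have e6 := jac g g' x.1
  rw [e1, e2, e3, br_neg, br_neg, br_mul, br_mul, e4, e5, LL_add, br_anti g' g] at e6
  have e7 : g * g' * ((LL hDVE hDVR h χ (LL hDVE hDVR h χ' x)).1 -
      (LL hDVE hDVR h χ' (LL hDVE hDVR h χ x)).1) = 0 := by
    linear_combination e6
  rcases mul_eq_zero.1 e7 with h1 | h1
  · exact absurd h1 (mul_ne_zero hg0 hg0')
  · exact sub_eq_zero.1 h1

lemma LL_LL (hDVE : T_DVE) (hDVR : T_DVR) (h : Fd W K H f) (χ χ' : Fin d → ℤ) (x : RR h) :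
    (LL hDVE hDVR h χ (LL hDVE hDVR h χ' x)).1 = ∑ i, ∑ j, (((χ i : ℤ) : k) * ((χ' j : ℤ) : k)) •
      (DD hDVE hDVR h i (DD hDVE hDVR h j x)).1 := by
  have h1 : ∀ i, DD hDVE hDVR h i (LL hDVE hDVR h χ' x) =
      ∑ j, ((χ' j : ℤ) : k) • DD hDVE hDVR h i (DD hDVE hDVR h j x) := by
    intro i
    unfold LL
    rw [map_sum]
    exact Finset.sum_congr rfl fun j _ => Derivation.map_smul _ _ _
  have h2 : LL hDVE hDVR h χ (LL hDVE hDVR h χ' x) = ∑ i, ∑ j,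
      (((χ i : ℤ) : k) * ((χ' j : ℤ) : k)) • DD hDVE hDVR h i (DD hDVE hDVR h j x) := by
    rw [LL]
    refine Finset.sum_congr rfl fun i _ => ?_
    rw [h1, Finset.smul_sum]
    exact Finset.sum_congr rfl fun j _ => by rw [smul_smul]
  rw [h2, AddSubmonoidClass.coe_finset_sum]
  refine Finset.sum_congr rfl fun i _ => ?_
  rw [AddSubmonoidClass.coe_finset_sum]
  rfl

/-- the derivations commute -/
lemma DD_comm (hDVE : T_DVE) (hDVR : T_DVR) (h : Fd W K H f) (i j : Fin d) (x : RR h) :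
    DD hDVE hDVR h i (DD hDVE hDVR h j x) = DD hDVE hDVR h j (DD hDVE hDVR h i x) := by
  apply Subtype.ext
  have key : ∀ α : Fin m ⊕ Fin m →₀ ℕ, ∀ i j : Fin d,
      coeff α ((DD hDVE hDVR h i (DD hDVE hDVR h j x)).1 -
        (DD hDVE hDVR h j (DD hDVE hDVR h i x)).1) = 0 := by
    intro α
    set a : Fin d → Fin d → k := fun i j => coeff α ((DD hDVE hDVR h i (DD hDVE hDVR h j x)).1 -
        (DD hDVE hDVR h j (DD hDVE hDVR h i x)).1) with ha
    have h1 : ∀ χ χ' : Fin d → ℤ, Oc W K χ → Oc W K χ' →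
        ∑ i, (∑ j, a i j * ((χ' j : ℤ) : k)) * ((χ i : ℤ) : k) = 0 := by
      intro χ χ' ho ho'
      have e1 := LL_comm hDVE hDVR h ho ho' x
      rw [LL_LL, LL_LL] at e1
      have e2 : ∑ i, ∑ j, (((χ' i : ℤ) : k) * ((χ j : ℤ) : k)) •
          (DD hDVE hDVR h i (DD hDVE hDVR h j x)).1 = ∑ i, ∑ j,
          (((χ i : ℤ) : k) * ((χ' j : ℤ) : k)) • (DD hDVE hDVR h j (DD hDVE hDVR h i x)).1 := by
        rw [Finset.sum_comm]
        refine Finset.sum_congr rfl fun i _ => Finset.sum_congr rfl fun j _ => ?_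
        rw [mul_comm]
      rw [e2, ← sub_eq_zero, ← Finset.sum_sub_distrib] at e1
      have e3 := congrArg (coeff α) e1
      rw [coeff_sum, coeff_zero] at e3
      rw [← e3]
      refine Finset.sum_congr rfl fun i _ => ?_
      rw [← Finset.sum_sub_distrib, coeff_sum, Finset.sum_mul]
      refine Finset.sum_congr rfl fun j _ => ?_
      rw [← smul_sub, coeff_smul, ha, smul_eq_mul]
      ring
    have h2 : ∀ i, ∀ χ' : Fin d → ℤ, Oc W K χ' → ∑ j, a i j * ((χ' j : ℤ) : k) = 0 := by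
      intro i χ' ho'
      have h3 := h.sp (fun i => ∑ j, a i j * ((χ' j : ℤ) : k)) (fun χ ho => h1 χ χ' ho ho')
      exact congrFun h3 i
    intro i j
    exact congrFun (h.sp (a i) (h2 i)) j
  rw [← sub_eq_zero]
  ext α
  rw [coeff_zero]
  exact key α i j

/-- the derivations are locally nilpotent -/
lemma DD_nil (hDVE : T_DVE) (hDVR : T_DVR) (h : Fd W K H f) (i : Fin d) :
    ∀ (N : ℕ) (x : RR h), x.1.totalDegree ≤ N → ∃ n : ℕ, (DD hDVE hDVR h i)^[n] x = 0 := by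
  intro N
  induction N with
  | zero =>
    intro x hx
    refine ⟨1, ?_⟩
    rw [Function.iterate_one]
    apply Subtype.ext
    rw [DD_val]
    by_contra hne
    have h1 := (hDVR k m d W K H f h).2.1 x.1 _ (dv_spec hDVE h x) i hne
    omega
  | succ N ih =>
    intro x hx
    by_cases h0 : dv hDVE h x i = 0
    · refine ⟨1, ?_⟩
      rw [Function.iterate_one]
      apply Subtype.ext
      rw [DD_val]
      exact h0
    · have h1 := (hDVR k m d W K H f h).2.1 x.1 _ (dv_spec hDVE h x) i h0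
      obtain ⟨n, hn⟩ := ih (DD hDVE hDVR h i x) (by
        rw [DD_val]
        omega)
      exact ⟨n + 1, by rw [Function.iterate_succ_apply]; exact hn⟩

lemma H_mem (h : Fd W K H f) (j : Fin d) : H j ∈ RR h := by
  rw [mem_RR, mem_Cf]
  refine ⟨⟨h.hK j, ?_⟩, h.h0 j⟩
  have e1 := h.eu j 0 f h.fK h.f0
  rw [Pi.zero_apply, Int.cast_zero, zero_smul] at e1
  rw [br_anti, e1, neg_zero]

end

theorem pf_SLH (hDVE : T_DVE) (hDVR : T_DVR) (hCGR : T_CGR) (hMSL : T_MSL) : T_SLH := by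
  classical
  intro k _ _ _ m d W K H f h x hx hx0
  have hD := hMSL k (RR h) (Fin d) (DD hDVE hDVR h) (fun j => ⟨H j, H_mem h j⟩)
    (fun i j a => DD_comm hDVE hDVR h i j a)
    (fun i a => DD_nil hDVE hDVR h i _ a le_rfl)
    (fun i j => by
      apply Subtype.ext
      rw [DD_val]
      obtain ⟨r1, r2, r3, r4, r5⟩ := hDVR k m d W K H f h
      have h1 := congrFun (r1 _ _ _ (dv_spec hDVE h ⟨H j, H_mem h j⟩) (r4 j)) i
      rw [h1]
      by_cases hij : i = j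
      · rw [if_pos hij, if_pos hij]
        rfl
      · rw [if_neg hij, if_neg hij]
        rfl)
    ⟨x, (mem_RR h).2 ⟨hx, hx0⟩⟩
  have h2 : (RR h).val ⟨x, (mem_RR h).2 ⟨hx, hx0⟩⟩ ∈ (Algebra.adjoin k
      ({g : RR h | ∀ i, DD hDVE hDVR h i g = 0} ∪
        Set.range (fun j => (⟨H j, H_mem h j⟩ : RR h)))).map (RR h).val :=
    Subalgebra.mem_map.2 ⟨_, hD, rfl⟩
  rw [AlgHom.map_adjoin] at h2
  refine Algebra.adjoin_mono ?_ h2
  rintro _ ⟨z, hz, rfl⟩
  rcases hz with hz | ⟨j, rfl⟩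
  · left
    refine ⟨((mem_RR h).1 z.2).1, ((mem_RR h).1 z.2).2, ?_⟩
    intro g hg
    have h3 : ∀ j, dv hDVE h z j = 0 := fun j => congrArg Subtype.val (hz j)
    have h4 : ∀ (χ : Fin d → ℤ) (g : Pol k m), g ∈ Cf K f → g ∈ W χ → br g z.1 = 0 := by
      intro χ g hg hgW
      rw [(dv_spec hDVE h z).2 χ g hg hgW]
      rw [Finset.sum_eq_zero fun j _ => by rw [h3 j, smul_zero], mul_zero, neg_zero]
    have h5 : br ((cmp h.toGr g).sum fun _ x => x) z.1 = 0 := by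
      unfold Finsupp.sum
      rw [sum_br]
      exact Finset.sum_eq_zero fun χ _ => by
        obtain ⟨c1, c2⟩ := hCGR k m d W K H f h g hg χ
        exact h4 χ _ c1 c2
    rw [cmp_sum] at h5
    exact h5
  · right
    exact ⟨j, rfl⟩

end Pool.Agent.H4.TG
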