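import Pool.Agent.H15.TG.Targets3
import Pool.Agent.H14.TG.SMC

set_option autoImplicit false

/-!
# MP_51eb24_ag, board tga_modules: row SMD
-/

namespace Pool.Agent.H4.TG

open MvPolynomial Pool.Agent.H2.ST Pool.Agent.H15.TG Pool.Agent.H14.TG

section

variable {k : Type} [Field k] {m : ℕ}

/-- lowest nonzero component -/
theorem exists_low {W : ℤ → Submodule k (Pol k m)} (h : PGr W) (v : Pol k m) (hv : v ≠ 0) :
    ∃ a : ℤ, cmp h.toGr v a ≠ 0 ∧ ∀ b, b < a → cmp h.toGr v b = 0 := by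
  have hs : (cmp h.toGr v).support.Nonempty := by
    by_contra h1
    rw [Finset.not_nonempty_iff_eq_empty] at h1
    apply hv
    rw [← cmp_sum h.toGr v]
    unfold Finsupp.sum
    rw [h1, Finset.sum_empty]
  refine ⟨(cmp h.toGr v).support.min' hs, Finsupp.mem_support_iff.1 (Finset.min'_mem _ _), ?_⟩
  intro b hb
  by_contra h1
  have := Finset.min'_le _ _ (Finsupp.mem_support_iff.2 h1)
  omega

theorem cmp_low_br {W : ℤ → Submodule k (Pol k m)} (h : PGr W) (u v : Pol k m) (i j : ℤ)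
    (hu : ∀ b, b < i → cmp h.toGr u b = 0) (hv : ∀ b, b < j → cmp h.toGr v b = 0) :
    cmp h.toGr (br u v) (i + j) = br (cmp h.toGr u i) (cmp h.toGr v j) := by
  classical
  rw [Pool.Agent.H57.ST2.cmp_br h u v (i + j)]
  rw [Finset.sum_eq_single i]
  · rw [Finset.sum_eq_single j]
    · rw [if_pos rfl]
    · intro y _ hy
      rw [if_neg]
      intro h1
      exact hy (by omega)
    · intro h1
      rw [Finsupp.notMem_support_iff.1 h1, br_zero, if_pos rfl]
  · intro x hx hxi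
    apply Finset.sum_eq_zero
    intro y hy
    rw [if_neg]
    intro h1
    have h2 : i ≤ x := by
      by_contra h3
      exact (Finsupp.mem_support_iff.1 hx) (hu x (by omega))
    have h3 : j ≤ y := by
      by_contra h4
      exact (Finsupp.mem_support_iff.1 hy) (hv y (by omega))
    exact hxi (by omega)
  · intro h1
    apply Finset.sum_eq_zero
    intro y _
    rw [Finsupp.notMem_support_iff.1 h1, zero_br, ite_self]

variable [CharZero k]

theorem low_lnil (hTOP : T_TOP) {W : ℤ → Submodule k (Pol k m)} (h : PGr W) (v : Pol k m)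
    (a : ℤ) (hv : LNil v) (hlow : ∀ b, b < a → cmp h.toGr v b = 0) :
    LNil (cmp h.toGr v a) := by
  have h2 := @hTOP k _ _ m ℤᵒᵈ _ _ _
  exact h2 W h v a hv hlow

theorem lowb (hTOP : T_TOP) {W : ℤ → Submodule k (Pol k m)} (h : PGr W) (p v : Pol k m)
    (i : ℤ) (hp : ∀ b, b < i → cmp h.toGr p b = 0) (hpv : br p v = 0) (hv : LNil v)
    (a₀ : ℤ) (ha₀ : a₀ ≤ 0) (hne : cmp h.toGr (v - C (constantCoeff v)) a₀ ≠ 0) :
    ∃ (b : Pol k m) (j : ℕ), b ∈ W (-(j : ℤ)) ∧ (¬ ∃ c : k, b = C c) ∧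
      br (cmp h.toGr p i) b = 0 ∧ LNil b := by
  set v0 := v - C (constantCoeff v) with hv0
  have hv00 : v0 ≠ 0 := by
    intro h1
    rw [h1, map_zero] at hne
    exact hne rfl
  obtain ⟨a, hane, hlow⟩ := exists_low h v0 hv00
  have hle : a ≤ a₀ := by
    by_contra h1
    exact hne (hlow a₀ (by omega))
  have hcc : constantCoeff v0 = 0 := by
    rw [hv0, map_sub, constantCoeff_C, sub_self]
  refine ⟨cmp h.toGr v0 a, (-a).toNat, ?_, ?_, ?_, ?_⟩
  · have h1 : (-(((-a).toNat : ℕ) : ℤ)) = a := by omega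
    rw [h1]
    exact cmp_mem h.toGr v0 a
  · rintro ⟨c, hc⟩
    have h1 : constantCoeff (cmp h.toGr v0 a) = 0 := by
      by_cases h2 : a = 0
      · rw [h2, cc_cmp h, hcc]
      · exact h.van a h2 _ (cmp_mem h.toGr v0 a)
    rw [hc, constantCoeff_C] at h1
    rw [hc, h1, map_zero] at hane
    exact hane rfl
  · rw [← cmp_low_br h p v0 i a hp hlow]
    have h1 : br p v0 = 0 := by
      rw [hv0, br_sub, br_C, sub_zero, hpv]
    rw [h1, map_zero, Finsupp.zero_apply]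
  · refine low_lnil hTOP h v0 a ?_ hlow
    unfold LNil
    rw [hv0, br_subC]
    exact hv

theorem smd_main (hTOP : T_TOP) {W : ℤ → Submodule k (Pol k m)} (h : PGr W)
    (p q q' : Pol k m) (hp : ∀ e, e < 0 → cmp h.toGr p e = 0) (hpn : ¬ ∃ c : k, p = C c)
    (hpq : br p q = 0) (hpq' : br p q' = 0) (hqr : br q q' = 1) (hpl : LNil p) (hq : LNil q)
    (hq' : LNil q') :
    (∃ a ∈ W 0, (¬ ∃ c : k, a = C c) ∧ LNil a) ∨
    ∃ (a b : Pol k m) (i j : ℕ), 0 < i ∧ a ∈ W (i : ℤ) ∧ b ∈ W (-(j : ℤ)) ∧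
      (¬ ∃ c : k, a = C c) ∧ (¬ ∃ c : k, b = C c) ∧ br a b = 0 ∧ LNil a ∧ LNil b := by
  classical
  by_cases h0 : ∃ c : k, cmp h.toGr p 0 = C c
  swap
  · exact Or.inl ⟨cmp h.toGr p 0, cmp_mem _ _ _, h0, low_lnil hTOP h p 0 hpl hp⟩
  right
  obtain ⟨c, hc⟩ := h0
  have hC0 : (C c : Pol k m) ∈ W 0 := by
    rw [← hc]
    exact cmp_mem _ _ _
  have hpc : ∀ e, cmp h.toGr (p - C c) e = if e = 0 then 0 else cmp h.toGr p e := by
    intro e
    rw [map_sub, cmp_of_mem h.toGr hC0, Finsupp.sub_apply, Finsupp.single_apply]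
    by_cases he : e = 0
    · rw [if_pos he, if_pos he.symm, he, hc, sub_self]
    · rw [if_neg he, if_neg (fun h1 => he h1.symm), sub_zero]
  have hp'0 : p - C c ≠ 0 := by
    intro h1
    exact hpn ⟨c, sub_eq_zero.1 h1⟩
  obtain ⟨i, hi, hilow⟩ := exists_low h (p - C c) hp'0
  have hipos : 0 < i := by
    by_contra h1
    apply hi
    rw [hpc]
    by_cases h2 : i = 0
    · rw [if_pos h2]
    · rw [if_neg h2]
      exact hp i (by omega)
  have hbr : br (p - C c) = br p := br_subC p c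
  have hal : LNil (cmp h.toGr (p - C c) i) := by
    refine low_lnil hTOP h _ i ?_ hilow
    unfold LNil
    rw [hbr]
    exact hpl
  have han : ¬ ∃ c' : k, cmp h.toGr (p - C c) i = C c' := by
    rintro ⟨c', hc'⟩
    have h1 := h.van i (by omega) _ (cmp_mem h.toGr (p - C c) i)
    rw [hc', constantCoeff_C] at h1
    rw [hc', h1, map_zero] at hi
    exact hi rfl
  have hfin : ∀ v : Pol k m, br p v = 0 → LNil v →
      (∃ a₀ : ℤ, a₀ ≤ 0 ∧ cmp h.toGr (v - C (constantCoeff v)) a₀ ≠ 0) →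
      ∃ (a b : Pol k m) (i j : ℕ), 0 < i ∧ a ∈ W (i : ℤ) ∧ b ∈ W (-(j : ℤ)) ∧
      (¬ ∃ c : k, a = C c) ∧ (¬ ∃ c : k, b = C c) ∧ br a b = 0 ∧ LNil a ∧ LNil b := by
    rintro v hv1 hv2 ⟨a₀, h2, h3⟩
    obtain ⟨b, j, hb1, hb2, hb3, hb4⟩ := lowb hTOP h (p - C c) v i hilow
      (by rw [hbr]; exact hv1) hv2 a₀ h2 h3
    refine ⟨cmp h.toGr (p - C c) i, b, i.toNat, j, by omega, ?_, hb1, han, hb2, hb3, hal, hb4⟩
    rw [Int.toNat_of_nonneg hipos.le]
    exact cmp_mem _ _ _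
  by_cases h1 : ∃ a₀ : ℤ, a₀ ≤ 0 ∧ cmp h.toGr (q - C (constantCoeff q)) a₀ ≠ 0
  · exact hfin q hpq hq h1
  by_cases h1' : ∃ a₀ : ℤ, a₀ ≤ 0 ∧ cmp h.toGr (q' - C (constantCoeff q')) a₀ ≠ 0
  · exact hfin q' hpq' hq' h1'
  exfalso
  have hb : br (q - C (constantCoeff q)) (q' - C (constantCoeff q')) = 1 := by
    rw [br_subC, br_sub, br_C, sub_zero, hqr]
  have h2 := Pool.Agent.H57.ST2.cmp_br h (q - C (constantCoeff q))
    (q' - C (constantCoeff q')) 0
  rw [hb, cmp_of_mem h.toGr h.one, Finsupp.single_eq_same] at h2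
  rw [Finset.sum_eq_zero] at h2
  · exact one_ne_zero h2
  · intro x hx
    apply Finset.sum_eq_zero
    intro y hy
    rw [if_neg]
    intro hxy
    have hx0 : 0 < x := by
      by_contra h3
      exact h1 ⟨x, by omega, Finsupp.mem_support_iff.1 hx⟩
    have hy0 : 0 < y := by
      by_contra h3
      exact h1' ⟨y, by omega, Finsupp.mem_support_iff.1 hy⟩
    omega

end

theorem cmp_equiv {k Γ Γ' : Type} [Field k] [AddCommGroup Γ] [AddCommGroup Γ'] {m : ℕ}
    (ε : Γ' ≃+ Γ) {W : Γ → Submodule k (Pol k m)} (h : PGr W) (f : Pol k m) (a : Γ') :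
    cmp (PGr_equiv ε h).toGr f a = cmp h.toGr f (ε a) := by
  have h1 := cmp_uniq (PGr_equiv ε h).toGr f
    (Finsupp.equivMapDomain ε.symm.toEquiv (cmp h.toGr f)) (fun a => by
      rw [Finsupp.equivMapDomain_apply]
      exact cmp_mem _ _ _) (by
      rw [Finsupp.equivMapDomain_eq_mapDomain, Finsupp.sum_mapDomain_index (fun _ => rfl)
        (fun _ _ _ => rfl)]
      exact cmp_sum _ _)
  rw [h1, Finsupp.equivMapDomain_apply]
  rfl

theorem pf_SMD (hTOP : T_TOP) : T_SMD := by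
  intro k _ _ W θ hW hθ hp
  have h01 : br (X (Sum.inl 0) : Pol k 2) (X (Sum.inl 1)) = 0 := by
    rw [br_inl, pderiv_X_of_ne (by simp), neg_zero]
  have h02 : br (X (Sum.inl 0) : Pol k 2) (X (Sum.inr 1)) = 0 := by
    rw [br_inr, pderiv_X_of_ne (by simp)]
  have h12 : br (X (Sum.inl 1) : Pol k 2) (X (Sum.inr 1)) = 1 := by
    rw [br_inr, pderiv_X_self]
  have h00 : br (X (Sum.inl 0) : Pol k 2) (X (Sum.inr 0)) = 1 := by
    rw [br_inr, pderiv_X_self]
  have hpn : ¬ ∃ c : k, θ (X (Sum.inl 0)) = C c := by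
    rintro ⟨c, hc⟩
    have h1 := hθ (X (Sum.inl 0)) (X (Sum.inr 0))
    rw [h00, map_one, hc, C_br] at h1
    exact one_ne_zero h1
  have hmain := smd_main hTOP (PGr_equiv epsF hW) (θ (X (Sum.inl 0)))
    (θ (X (Sum.inl 1))) (θ (X (Sum.inr 1))) (fun e he => by
      rw [cmp_equiv epsF hW]
      exact hp _ he) hpn (by rw [← hθ, h01, map_zero])
    (by rw [← hθ, h02, map_zero]) (by rw [← hθ, h12, map_one])
    (LNil_symp θ hθ _ (LNil_X _)) (LNil_symp θ hθ _ (LNil_X _)) (LNil_symp θ hθ _ (LNil_X _))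
  rcases hmain with ⟨a, ha, han, hal⟩ | ⟨a, b, i, j, hi, ha, hb, han, hbn, hab, hal, hbl⟩
  · refine ⟨1, fun _ => a, fun _ => epsF 0, fun _ => 1, fun _ => ha, fun _ => han, ?_,
      fun _ => hal, ⟨0, one_ne_zero⟩, ?_⟩
    · intro i j
      exact br_self _
    · rw [map_zero]
      simp
  · have hba : br b a = 0 := by rw [br_anti, hab, neg_zero]
    refine ⟨2, ![a, b], ![epsF (i : ℤ), epsF (-(j : ℤ))], ![j, i], ?_, ?_, ?_, ?_, ?_, ?_⟩
    · intro s
      fin_cases s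
      · exact ha
      · exact hb
    · intro s
      fin_cases s
      · exact han
      · exact hbn
    · intro s t
      fin_cases s <;> fin_cases t
      · exact br_self _
      · exact hab
      · exact hba
      · exact br_self _
    · intro s
      fin_cases s
      · exact hal
      · exact hbl
    · refine ⟨1, ?_⟩
      change i ≠ 0
      omega
    · rw [Fin.sum_univ_two]
      change (j : ℤ) • epsF (i : ℤ) + (i : ℤ) • epsF (-(j : ℤ)) = 0
      rw [← map_zsmul, ← map_zsmul, ← map_add]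
      have h1 : (j : ℤ) • (i : ℤ) + (i : ℤ) • (-(j : ℤ)) = 0 := by
        rw [smul_eq_mul, smul_eq_mul]
        ring
      rw [h1, map_zero]

end Pool.Agent.H4.TG
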